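import Mathlib

/-!
Project PP (helper533): MP_975621_co, S10281.  Plane permutations and inversion sequences
avoiding 101 and 201 are both counted by the semi-Baxter generating tree
`(h,k) -> (j, h+k+1-j) (1<=j<=h), (h+1, i) (1<=i<=k)`.
-/

set_option autoImplicit false

namespace Pool.Agent.W533.PP

open Finset
open scoped Classical

/-- number of nodes at depth `m` below a node with label `(h,k)` -/
def T : ℕ → ℕ → ℕ → ℕ
  | 0, _, _ => 1
  | (m+1), h, k =>
      (∑ j ∈ Finset.range h, T m (j+1) (h+k-j)) + ∑ i ∈ Finset.range k, T m (h+1) (i+1)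

theorem T_zero (h k : ℕ) : T 0 h k = 1 := rfl

theorem T_succ (m h k : ℕ) : T (m+1) h k =
    (∑ j ∈ Finset.range h, T m (j+1) (h+k-j)) + ∑ i ∈ Finset.range k, T m (h+1) (i+1) := rfl

/-! ### rank sums -/

/-- RANK -/
def RANK : Prop := ∀ (A : Finset ℕ) (f : ℕ → ℕ),
  ∑ v ∈ A, f ((A.filter (fun s => s ≤ v)).card) = ∑ j ∈ Finset.range A.card, f (j+1)

/-- RANKU -/
def RANKU : Prop := ∀ (A : Finset ℕ) (f : ℕ → ℕ),
  ∑ v ∈ A, f ((A.filter (fun s => v ≤ s)).card) = ∑ j ∈ Finset.range A.card, f (j+1)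

/-! ### permutations -/

/-- append a last entry with value `v` (the old values `≥ v` are raised by one) -/
noncomputable def ins {n : ℕ} (v : Fin (n+1)) (τ : Equiv.Perm (Fin n)) : Equiv.Perm (Fin (n+1)) :=
  (finSuccEquiv' (Fin.last n)).trans ((Equiv.optionCongr τ).trans (finSuccEquiv' v).symm)

theorem ins_last {n : ℕ} (v : Fin (n+1)) (τ : Equiv.Perm (Fin n)) :
    ins v τ (Fin.last n) = v := by
  simp [ins]

theorem ins_castSucc {n : ℕ} (v : Fin (n+1)) (τ : Equiv.Perm (Fin n)) (i : Fin n) :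
    ins v τ i.castSucc = v.succAbove (τ i) := by
  have h : (finSuccEquiv' (Fin.last n)) i.castSucc = some i := by
    rw [← Fin.succAbove_last_apply, finSuccEquiv'_succAbove]
  simp [ins, h]

/-- plane permutations: no `2-14-3` -/
def Plane {n : ℕ} (σ : Equiv.Perm (Fin n)) : Prop :=
  ∀ i j k l : Fin n, i < j → k.val = j.val + 1 → k < l →
    ¬ (σ j < σ i ∧ σ i < σ l ∧ σ l < σ k)

/-- the site `s` (insertion of a last entry with exactly `s` smaller entries) is active -/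
def Act {n : ℕ} (σ : Equiv.Perm (Fin n)) (s : ℕ) : Prop :=
  ∀ i j k : Fin n, i < j → k.val = j.val + 1 →
    ¬ ((σ j).val < (σ i).val ∧ (σ i).val < s ∧ s ≤ (σ k).val)

/-- number of active sites below the last entry -/
noncomputable def hL {n : ℕ} (τ : Equiv.Perm (Fin (n+1))) : ℕ :=
  ((Finset.range ((τ (Fin.last n)).val + 1)).filter (fun s => Act τ s)).card

/-- number of active sites above the last entry -/
noncomputable def kL {n : ℕ} (τ : Equiv.Perm (Fin (n+1))) : ℕ :=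
  ((Finset.Ico ((τ (Fin.last n)).val + 1) (n+2)).filter (fun s => Act τ s)).card

/-- all active sites -/
noncomputable def aS {n : ℕ} (τ : Equiv.Perm (Fin (n+1))) : Finset ℕ :=
  (Finset.range (n+2)).filter (fun s => Act τ s)

/-- PEQ: the barred pattern condition of the frozen statement -/
def PEQ : Prop := ∀ (n : ℕ) (σ : Equiv.Perm (Fin n)),
  (∀ i j k l : Fin n, i < j → j < k → k < l →
          σ j < σ i → σ i < σ l → σ l < σ k →
          ∃ m : Fin n, j < m ∧ m < k ∧ σ i < σ m ∧ σ m < σ l) ↔ Plane σ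

/-- INSB -/
def INSB : Prop := ∀ n : ℕ, Function.Bijective
  (fun p : Fin (n+1) × Equiv.Perm (Fin n) => ins p.1 p.2)

/-- PINS -/
def PINS : Prop := ∀ (n : ℕ) (v : Fin (n+1)) (τ : Equiv.Perm (Fin n)),
  Plane (ins v τ) ↔ (Plane τ ∧ Act τ v.val)

/-- PACT -/
def PACT : Prop := ∀ (n : ℕ) (τ : Equiv.Perm (Fin (n+1))) (v : Fin (n+2)) (s : ℕ),
  Act (ins v τ) s ↔ (Act τ (if s ≤ v.val then s else s - 1) ∧
    ¬ ((τ (Fin.last n)).val + 2 ≤ s ∧ s ≤ v.val))

/-- PLAB: labels of the children -/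
def PLAB : Prop := ∀ (n : ℕ) (τ : Equiv.Perm (Fin (n+1))), Plane τ →
  ∀ v : Fin (n+2), Act τ v.val →
    (v.val ≤ (τ (Fin.last n)).val →
      hL (ins v τ) = ((aS τ).filter (fun s => s ≤ v.val)).card ∧
      kL (ins v τ) = ((aS τ).filter (fun s => v.val ≤ s)).card) ∧
    ((τ (Fin.last n)).val < v.val →
      hL (ins v τ) = hL τ + 1 ∧
      kL (ins v τ) = ((aS τ).filter (fun s => v.val ≤ s)).card)

/-- PSUM -/
def PSUM : Prop := ∀ (n : ℕ) (τ : Equiv.Perm (Fin (n+1))), Plane τ → ∀ m : ℕ,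
  ∑ v ∈ (Finset.univ : Finset (Fin (n+2))).filter (fun v => Act τ v.val),
      T m (hL (ins v τ)) (kL (ins v τ)) = T (m+1) (hL τ) (kL τ)

/-- PCOUNT -/
def PCOUNT : Prop := ∀ n : ℕ,
  ((Finset.univ : Finset (Equiv.Perm (Fin (n+1)))).filter (fun σ => Plane σ)).card = T n 1 1

/-! ### inversion sequences -/

/-- inversion sequences avoiding 101 and 201 -/
def Inv {n : ℕ} (e : Fin n → ℕ) : Prop :=
  (∀ i, e i ≤ i.val) ∧ ∀ i j k : Fin n, i < j → j < k → ¬ (e j < e k ∧ e k ≤ e i)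

/-- the value `x` may be appended -/
def ActI {n : ℕ} (e : Fin n → ℕ) (x : ℕ) : Prop :=
  x ≤ n ∧ ∀ i j : Fin n, i < j → ¬ (e j < x ∧ x ≤ e i)

/-- maximum -/
def Mx {n : ℕ} (e : Fin (n+1) → ℕ) : ℕ := Finset.univ.sup e

/-- number of values `≤` maximum that may be appended -/
noncomputable def aL {n : ℕ} (e : Fin (n+1) → ℕ) : ℕ :=
  ((Finset.range (Mx e + 1)).filter (fun s => ActI e s)).card

/-- number of values `>` maximum that may be appended -/
noncomputable def bL {n : ℕ} (e : Fin (n+1) → ℕ) : ℕ :=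
  ((Finset.Ico (Mx e + 1) (n+2)).filter (fun s => ActI e s)).card

/-- all values that may be appended -/
noncomputable def aI {n : ℕ} (e : Fin (n+1) → ℕ) : Finset ℕ :=
  (Finset.range (n+2)).filter (fun s => ActI e s)

/-- append -/
def app {n : ℕ} (e : Fin n → ℕ) (x : ℕ) : Fin (n+1) → ℕ := Fin.snoc (α := fun _ => ℕ) e x

theorem app_last {n : ℕ} (e : Fin n → ℕ) (x : ℕ) : app e x (Fin.last n) = x := by
  simp [app]

theorem app_castSucc {n : ℕ} (e : Fin n → ℕ) (x : ℕ) (i : Fin n) :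
    app e x i.castSucc = e i := by
  simp [app]

/-- IINS -/
def IINS : Prop := ∀ (n : ℕ) (e : Fin n → ℕ) (x : ℕ), Inv (app e x) ↔ (Inv e ∧ ActI e x)

/-- IACT -/
def IACT : Prop := ∀ (n : ℕ) (e : Fin (n+1) → ℕ) (x y : ℕ),
  ActI (app e x) y ↔ (y ≤ n + 2 ∧ (∀ i j : Fin (n+1), i < j → ¬ (e j < y ∧ y ≤ e i)) ∧
    ¬ (x < y ∧ y ≤ Mx e))

/-- ILAB -/
def ILAB : Prop := ∀ (n : ℕ) (e : Fin (n+1) → ℕ), Inv e → ∀ x : ℕ, ActI e x →
    bL e + Mx e = n + 1 ∧
    (x ≤ Mx e → aL (app e x) = ((aI e).filter (fun s => s ≤ x)).card ∧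
      bL (app e x) = bL e + 1) ∧
    (Mx e < x → aL (app e x) = aL e + (x - Mx e) ∧ bL (app e x) = n + 2 - x)

/-- ISUM -/
def ISUM : Prop := ∀ (n : ℕ) (e : Fin (n+1) → ℕ), Inv e → ∀ m : ℕ,
  ∑ x ∈ aI e, T m (bL (app e x)) (aL (app e x)) = T (m+1) (bL e) (aL e)

/-- ICOUNT -/
def ICOUNT : Prop := ∀ n : ℕ, Nat.card {e : Fin (n+1) → ℕ // Inv e} = T n 1 1

/-- FIN: the frozen statement S10281 -/
def FIN : Prop :=
    ∀ n : ℕ,
      Nat.card {σ : Equiv.Perm (Fin n) //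
        ∀ i j k l : Fin n, i < j → j < k → k < l →
          σ j < σ i → σ i < σ l → σ l < σ k →
          ∃ m : Fin n, j < m ∧ m < k ∧ σ i < σ m ∧ σ m < σ l}
      =
      Nat.card {e : Fin n → Fin n //
        (∀ i : Fin n, (e i).val ≤ i.val) ∧
        ∀ i j k : Fin n, i < j → j < k →
          ¬ (e i = e k ∧ e j < e i) ∧ ¬ (e j < e k ∧ e k < e i)}

end Pool.Agent.W533.PP
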